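import Pool.Agent.X20.Tr.UpPow
import Pool.Agent.Results.MP_f2148a_nt.AlmostAllK

/-!
# Mordell's equations `y² = x³ + a ⌊α n ^ c⌋ + b`

From Mathlib: `dimH E`: the Hausdorff dimension; `⌊x⌋₊`: the integer part; `Finset.Icc 1 N`: the integers from `1` to
`N`.
-/

set_option autoImplicit false

namespace Pool.Agent.Results.MP_f2148a_nt.AlongDilatedPowers

open Finset Filter
open Pool.Agent.X20.Tr
open Pool.Agent.Y854.PS (ms xs)

/-- Mordell's equation `y ^ 2 = x ^ 3 + k` has a solution in integers with `|x| ≤ exp (m ^ (1 / 10000))`. -/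
def Solvable (k : ℤ) (m : ℕ) : Prop :=
  ∃ x y : ℤ, y ^ 2 = x ^ 3 + k ∧ |(x : ℝ)| ≤ Real.exp ((m : ℝ) ^ ((1 : ℝ) / 10000))

lemma cnt_le (a b : ℤ) (ha : a ≠ 0) : ∃ C : ℝ, ∀ X : ℕ, 1 ≤ X →
    (cnt {m : ℕ | Solvable (a * m + b) m} X : ℝ) ≤ C * (X : ℝ) ^ (1 - (1 : ℝ) / 100) := by
  classical
  obtain ⟨M, hM⟩ := AlmostAllK.result
  refine ⟨max M 0 * (|(a : ℝ)| + |(b : ℝ)|) ^ ((99 : ℝ) / 100) + 1, fun X hX => ?_⟩
  have hX1 : (1 : ℝ) ≤ X := by exact_mod_cast hX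
  obtain ⟨K, hK⟩ : ∃ K : ℝ, K = |(a : ℝ)| * X + |(b : ℝ)| := ⟨_, rfl⟩
  have ha1 : (1 : ℝ) ≤ |(a : ℝ)| := by
    have := Int.one_le_abs ha
    exact_mod_cast this
  have hb0 : 0 ≤ |(b : ℝ)| := abs_nonneg _
  have hKX : (X : ℝ) ≤ K := by
    rw [hK]
    nlinarith
  have hK1 : 1 ≤ K := hX1.trans hKX
  have h1 := hM K hK1
  obtain ⟨T, hT⟩ : ∃ T : Set ℤ, T = {k : ℤ | k ≠ 0 ∧ |(k : ℝ)| ≤ K ∧ ∃ x y : ℤ, y ^ 2 = x ^ 3 + k ∧
      |(x : ℝ)| ≤ Real.exp (K ^ ((1 : ℝ) / 10000))} := ⟨_, rfl⟩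
  rw [← hT] at h1
  have hTfin : T.Finite := by
    refine (Set.finite_Icc (-⌊K⌋) ⌊K⌋).subset ?_
    intro k hk
    rw [hT] at hk
    have hk2 := hk.2.1
    rw [abs_le] at hk2
    constructor
    · have h2 : ((-k : ℤ) : ℝ) ≤ K := by
        push_cast
        linarith [hk2.1]
      have := Int.le_floor.2 h2
      omega
    · exact Int.le_floor.2 hk2.2
  have h2 : cnt {m : ℕ | Solvable (a * m + b) m} X ≤ T.ncard + 1 := by
    unfold cnt
    have h3 : (((Icc 1 X).filter (fun m : ℕ => m ∈ {m : ℕ | Solvable (a * m + b) m})).image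
        (fun m : ℕ => a * (m : ℤ) + b)) ⊆ insert 0 hTfin.toFinset := by
      intro k hk
      rw [mem_image] at hk
      obtain ⟨m, hm, rfl⟩ := hk
      rw [mem_filter, mem_Icc] at hm
      obtain ⟨⟨hm1, hm2⟩, x, y, hxy, hx⟩ := hm
      rw [mem_insert]
      by_cases h0 : a * (m : ℤ) + b = 0
      · exact Or.inl h0
      · right
        rw [Set.Finite.mem_toFinset, hT]
        have hmX : (m : ℝ) ≤ X := by exact_mod_cast hm2
        refine ⟨h0, ?_, x, y, hxy, hx.trans (Real.exp_le_exp.2 ?_)⟩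
        · push_cast
          refine (abs_add_le _ _).trans ?_
          rw [abs_mul, Nat.abs_cast, hK]
          have := mul_le_mul_of_nonneg_left hmX (abs_nonneg (a : ℝ))
          linarith
        · exact Real.rpow_le_rpow (Nat.cast_nonneg _) (hmX.trans hKX) (by norm_num)
    have h4 := card_le_card h3
    rw [card_image_of_injective] at h4
    · refine le_trans ?_ (h4.trans ((card_insert_le _ _).trans ?_))
      · exact le_of_eq (card_filt _ fun _ => Iff.rfl)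
      · rw [Set.ncard_eq_toFinset_card T hTfin]
    · intro m m' h
      have h' : a * (m : ℤ) + b = a * (m' : ℤ) + b := h
      have h5 : a * (m : ℤ) = a * (m' : ℤ) := by linarith
      have := mul_left_cancel₀ ha h5
      exact_mod_cast this
  have h3 : (cnt {m : ℕ | Solvable (a * m + b) m} X : ℝ) ≤ T.ncard + 1 := by exact_mod_cast h2
  have h4 : K ^ ((99 : ℝ) / 100) ≤ (|(a : ℝ)| + |(b : ℝ)|) ^ ((99 : ℝ) / 100) * (X : ℝ) ^ ((99 : ℝ) / 100) := by
    rw [← Real.mul_rpow (by positivity) (by positivity)]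
    apply Real.rpow_le_rpow (by linarith) _ (by norm_num)
    rw [hK]
    nlinarith
  have h5 : (1 : ℝ) ≤ (X : ℝ) ^ ((99 : ℝ) / 100) := Real.one_le_rpow hX1 (by norm_num)
  have h6 : M * K ^ ((99 : ℝ) / 100) ≤ max M 0 * ((|(a : ℝ)| + |(b : ℝ)|) ^ ((99 : ℝ) / 100) *
      (X : ℝ) ^ ((99 : ℝ) / 100)) := by
    have h7 : 0 ≤ K ^ ((99 : ℝ) / 100) := by positivity
    exact (mul_le_mul_of_nonneg_right (le_max_left M 0) h7).trans
      (mul_le_mul_of_nonneg_left h4 (le_max_right _ _))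
  rw [show (1 : ℝ) - 1 / 100 = 99 / 100 by norm_num]
  linarith

open Classical in
/-- For every real `c > 1` there are `κ > 0` and a set `E` of real numbers of Hausdorff dimension at most `1 - κ`
such that for every real `α > 0` outside `E` and ALL integers `a ≠ 0` and `b`, writing `m(n) = ⌊α n ^ c⌋`: for all large
`N`, for all but at most `N ^ (1 - κ)` of the integers `n ≤ N` the equation `y ^ 2 = x ^ 3 + a m(n) + b` has no solution
at all in integers with `|x| ≤ exp (m(n) ^ (1 / 10000))`. In particular for these `n` Hall's inequality can fail for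
`k = a m(n) + b` only at points with `|x| > exp (m(n) ^ (1 / 10000))`. -/
theorem result (c : ℝ) (hc : 1 < c) : ∃ κ : ℝ, 0 < κ ∧ κ < 1 ∧ ∃ E : Set ℝ, dimH E ≤ ENNReal.ofReal (1 - κ) ∧
    ∀ α : ℝ, 0 < α → α ∉ E → ∀ a b : ℤ, a ≠ 0 → ∃ N₀ : ℕ, ∀ N : ℕ, N₀ ≤ N →
      (((Icc 1 N).filter (fun n : ℕ =>
        Solvable (a * ((⌊α * (n : ℝ) ^ c⌋₊ : ℕ) : ℤ) + b) ⌊α * (n : ℝ) ^ c⌋₊)).card : ℝ) ≤ (N : ℝ) ^ (1 - κ) := by
  obtain ⟨κ, hκ0, hκ1, H⟩ := use c hc
  obtain ⟨E, hE, h⟩ := H (fun _ _ => ∅) (ℤ × ℤ) (fun i => {m : ℕ | Solvable (i.1 * m + i.2) m})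
  refine ⟨min (κ / 2) (1 / 300), lt_min (by positivity) (by norm_num),
    lt_of_le_of_lt (min_le_right _ _) (by norm_num), E, hE.trans (ENNReal.ofReal_le_ofReal ?_),
    fun α hα hαE a b ha => ?_⟩
  · have := min_le_left (κ / 2) (1 / 300 : ℝ)
    linarith
  · obtain ⟨_, _, h3⟩ := h α hα hαE
    obtain ⟨N₀, h4⟩ := up_pow hc hα hκ0 (δ := 1 / 100) (by norm_num) (by norm_num) (h3 (a, b)) (cnt_le a b ha)
      (min (κ / 2) (1 / 300)) (le_min (by positivity) (by norm_num))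
      (lt_of_le_of_lt (min_le_left _ _) (by linarith)) (lt_of_le_of_lt (min_le_right _ _) (by norm_num))
    refine ⟨N₀, fun N hN => ?_⟩
    exact le_trans (le_of_eq (congrArg Nat.cast (hit_form c α (fun m : ℕ => Solvable (a * m + b) m) N))) (h4 N hN)

end Pool.Agent.Results.MP_f2148a_nt.AlongDilatedPowers
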