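import Pool.Agent.Results.MP_f2148a_nt.SparseViolations
import Pool.Agent.Results.MP_f2148a_nt.AlmostAllK
import Pool.Agent.X123.ML.Base

/-!
# Hall's inequality for the Mordell curves whose parameter lies near the points outside a small set

Let `s` be any map from the integers to a metric space, for example `s(k)` = the fractional part of `β k` or of `√|k|` as a
real number, or `s(k) = k` as a `p`-adic integer, and `τ > 0`. (1) For `A ≥ 2` and all points `z` outside a set of Hausdorff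
dimension at most `(A / 4 + 1 / 6) / τ`, for every `C > 0` and all but finitely many of the `k` with
`|z - s(k)| ≤ |k| ^ (-τ)` ALL integral points of `y² = x³ + k` with `|x| ≤ |k| ^ A` satisfy Hall's inequality
`max (|x|, |y|) ≤ C |k|³`. (2) For all `z` outside a set of Hausdorff dimension at most `(99 / 100) / τ`, for all but finitely
many of these `k` there are no integral points with `|x| ≤ exp (|k| ^ (1 / 10000))` at all.
-/

set_option autoImplicit false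

open scoped ENNReal

namespace Pool.Agent.Results.MP_f2148a_nt.CurvesNearTargets

open Pool.Agent.X123.ML MeasureTheory

/-- the nonzero `k` with an integral point with `|x| ≤ |k| ^ A` which violates Hall's inequality with the constant `C` -/
def Viol (A C : ℝ) : Set ℤ := {k : ℤ | k ≠ 0 ∧ ∃ x y : ℤ, y ^ 2 = x ^ 3 + k ∧
  C * |(k : ℝ)| ^ 3 < max |(x : ℝ)| |(y : ℝ)| ∧ |(x : ℝ)| ≤ |(k : ℝ)| ^ A}

/-- the nonzero `k` with an integral point with `|x| ≤ exp (|k| ^ (1 / 10000))` -/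
def Sol : Set ℤ := {k : ℤ | k ≠ 0 ∧ ∃ x y : ℤ, y ^ 2 = x ^ 3 + k ∧
  |(x : ℝ)| ≤ Real.exp (|(k : ℝ)| ^ ((1 : ℝ) / 10000))}

/-- the `k` with `|z - s(k)| ≤ |k| ^ (-τ)` -/
def Near {M : Type} [MetricSpace M] (s : ℤ → M) (τ : ℝ) (z : M) : Set ℤ :=
  {k : ℤ | dist z (s k) ≤ |(k : ℝ)| ^ (-τ)}

lemma fin_le (X : ℝ) : {k : ℤ | |(k : ℝ)| ≤ X}.Finite := by
  apply (Set.finite_Icc (-⌊X⌋) ⌊X⌋).subset
  intro k hk
  have h := abs_le.1 (show |(k : ℝ)| ≤ X from hk)
  rw [Set.mem_Icc]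
  constructor
  · have : -k ≤ ⌊X⌋ := Int.le_floor.2 (by push_cast; linarith [h.1])
    linarith
  · exact Int.le_floor.2 h.2

lemma one_le {k : ℤ} (hk : k ≠ 0) : (1 : ℝ) ≤ |(k : ℝ)| := by
  have h : (1 : ℤ) ≤ |k| := Int.one_le_abs hk
  have h7 : ((1 : ℤ) : ℝ) ≤ ((|k| : ℤ) : ℝ) := by exact_mod_cast h
  rwa [Int.cast_one, Int.cast_abs] at h7

lemma cnt_viol (A C : ℝ) (hA : 2 ≤ A) (hC : 0 < C) :
    Cnt (Viol A C) (fun k : ℤ => Real.log |(k : ℝ)|) (A / 4 + 1 / 6) := by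
  apply cnt_of_pow (H := fun k : ℤ => |(k : ℝ)|)
  · exact fun k hk => lt_of_lt_of_le one_pos (one_le hk.1)
  · intro ε hε
    obtain ⟨M, hM⟩ := SparseViolations.result C A ε hC hA hε
    refine ⟨M, fun X hX => ⟨(fin_le X).subset fun k hk => hk.2, ?_⟩⟩
    refine le_trans ?_ (hM X hX)
    rw [Nat.cast_le]
    apply Set.ncard_le_ncard _ ((fin_le X).subset fun k hk => hk.2.1)
    rintro k ⟨⟨h0, x, y, h1, h2, h3⟩, h4⟩
    exact ⟨h0, h4, x, y, h1, h2, h3.trans (Real.rpow_le_rpow (abs_nonneg _) h4 (by linarith))⟩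

lemma cnt_sol : Cnt Sol (fun k : ℤ => Real.log |(k : ℝ)|) (99 / 100) := by
  apply cnt_of_pow (H := fun k : ℤ => |(k : ℝ)|)
  · exact fun k hk => lt_of_lt_of_le one_pos (one_le hk.1)
  · intro ε hε
    obtain ⟨M, hM⟩ := AlmostAllK.result
    refine ⟨|M|, fun X hX => ⟨(fin_le X).subset fun k hk => hk.2, ?_⟩⟩
    have hX0 : (0 : ℝ) < X := by linarith
    have h5 : (({k | k ∈ Sol ∧ |((k : ℤ) : ℝ)| ≤ X}.ncard : ℕ) : ℝ) ≤ M * X ^ ((99 : ℝ) / 100) := by
      refine le_trans ?_ (hM X hX)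
      rw [Nat.cast_le]
      apply Set.ncard_le_ncard _ ((fin_le X).subset fun k hk => hk.2.1)
      rintro k ⟨⟨h0, x, y, h1, h2⟩, h4⟩
      exact ⟨h0, h4, x, y, h1, h2.trans (Real.exp_le_exp.2
        (Real.rpow_le_rpow (abs_nonneg _) h4 (by norm_num)))⟩
    refine h5.trans ?_
    calc M * X ^ ((99 : ℝ) / 100) ≤ |M| * X ^ ((99 : ℝ) / 100) :=
          mul_le_mul_of_nonneg_right (le_abs_self M) (by positivity)
      _ ≤ |M| * X ^ ((99 : ℝ) / 100 + ε) :=
          mul_le_mul_of_nonneg_left (Real.rpow_le_rpow_of_exponent_le hX (by linarith))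
            (abs_nonneg M)

/-- **Theorem.** Let `τ > 0`. For every map `s` from the integers to a metric space: (1) For `A ≥ 2` there is a set `E` of
Hausdorff dimension at most `(A / 4 + 1 / 6) / τ` such that for each `z` outside `E` and each `C > 0` only finitely many
`k ≠ 0` with `|z - s(k)| ≤ |k| ^ (-τ)` have an integral point `y² = x³ + k` with `|x| ≤ |k| ^ A` and
`max (|x|, |y|) > C |k|³`. (2) There is a set `E` of Hausdorff dimension at most `(99 / 100) / τ` such that for each `z`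
outside `E` only finitely many `k ≠ 0` with `|z - s(k)| ≤ |k| ^ (-τ)` have an integral point with
`|x| ≤ exp (|k| ^ (1 / 10000))`. (3) If `s` is a map to the real numbers, then the property in (1), respectively (2), holds
for almost all real `z` if `A / 4 + 1 / 6 < τ`, respectively if `99 / 100 < τ`. -/
theorem result (τ : ℝ) (hτ : 0 < τ) :
    (∀ (M : Type) [MetricSpace M] (s : ℤ → M),
      (∀ A : ℝ, 2 ≤ A → ∃ E : Set M, dimH E ≤ ENNReal.ofReal ((A / 4 + 1 / 6) / τ) ∧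
        ∀ z : M, z ∉ E → ∀ C : ℝ, 0 < C → (Viol A C ∩ Near s τ z).Finite) ∧
      ∃ E : Set M, dimH E ≤ ENNReal.ofReal (99 / 100 / τ) ∧
        ∀ z : M, z ∉ E → (Sol ∩ Near s τ z).Finite) ∧
    ∀ s : ℤ → ℝ,
      (∀ A : ℝ, 2 ≤ A → A / 4 + 1 / 6 < τ → ∀ᵐ z : ℝ, ∀ C : ℝ, 0 < C →
        (Viol A C ∩ Near s τ z).Finite) ∧
      (99 / 100 < τ → ∀ᵐ z : ℝ, (Sol ∩ Near s τ z).Finite) := by
  have main1 : ∀ (M : Type) [MetricSpace M] (s : ℤ → M) (A : ℝ), 2 ≤ A →
      ∃ E : Set M, dimH E ≤ ENNReal.ofReal ((A / 4 + 1 / 6) / τ) ∧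
        ∀ z : M, z ∉ E → ∀ C : ℝ, 0 < C → (Viol A C ∩ Near s τ z).Finite := by
    intro M _ s A hA
    obtain ⟨E, hE, hE2⟩ := pos_dim (fun j : ℕ => Viol A (1 / ((j : ℝ) + 1)))
      (fun k : ℤ => Real.log |(k : ℝ)|) (fun _ k hk => Real.log_nonneg (one_le hk.1))
      (by linarith : (0 : ℝ) ≤ A / 4 + 1 / 6) hτ (fun j => cnt_viol A _ hA (by positivity)) s
    refine ⟨E, hE, fun z hz C hC => ?_⟩
    obtain ⟨j, hj⟩ := exists_nat_one_div_lt hC
    refine (hE2 z hz j).subset ?_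
    rintro k ⟨⟨h0, x, y, h1, h2, h3⟩, h4⟩
    refine ⟨⟨h0, x, y, h1, lt_of_le_of_lt ?_ h2, h3⟩, ?_⟩
    · exact mul_le_mul_of_nonneg_right hj.le (by positivity)
    · rw [exp_eq_pow (lt_of_lt_of_le one_pos (one_le h0))]
      exact h4
  have main2 : ∀ (M : Type) [MetricSpace M] (s : ℤ → M),
      ∃ E : Set M, dimH E ≤ ENNReal.ofReal (99 / 100 / τ) ∧
        ∀ z : M, z ∉ E → (Sol ∩ Near s τ z).Finite := by
    intro M _ s
    obtain ⟨E, hE, hE2⟩ := pos_dim (fun _ : Unit => Sol)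
      (fun k : ℤ => Real.log |(k : ℝ)|) (fun _ k hk => Real.log_nonneg (one_le hk.1))
      (by norm_num : (0 : ℝ) ≤ 99 / 100) hτ (fun _ => cnt_sol) s
    refine ⟨E, hE, fun z hz => (hE2 z hz ()).subset ?_⟩
    rintro k ⟨h0, h4⟩
    refine ⟨h0, ?_⟩
    rw [exp_eq_pow (lt_of_lt_of_le one_pos (one_le h0.1))]
    exact h4
  refine ⟨fun M _ s => ⟨main1 M s, main2 M s⟩, fun s => ⟨fun A hA hlt => ?_, fun hlt => ?_⟩⟩
  · obtain ⟨E, hE, hE2⟩ := main1 ℝ s A hA
    have h3 : volume E = 0 := null_real (by rwa [div_lt_one hτ]) hE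
    filter_upwards [measure_eq_zero_iff_ae_notMem.1 h3] with z hz
    exact hE2 z hz
  · obtain ⟨E, hE, hE2⟩ := main2 ℝ s
    have h3 : volume E = 0 := null_real (by rwa [div_lt_one hτ]) hE
    filter_upwards [measure_eq_zero_iff_ae_notMem.1 h3] with z hz
    exact hE2 z hz

end Pool.Agent.Results.MP_f2148a_nt.CurvesNearTargets
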