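import Pool.Agent.Results.MP_f2148a_nt.SparseViolations
import Pool.Agent.Results.MP_f2148a_nt.AlmostAllK
import Pool.Agent.Y854.GM.Win

/-!
# Hall's inequality without exceptions for all `k` in windows around thin sequences

Let `v ≥ 1` be a sequence with exponent of convergence at most `τ` (for `v_n = n ^ a` this is `1 / a`, for `v_n = b ^ n`
or `n!` it is `0`) and `θ < 1`.

1. Let `A ≥ 2`. For all `α > 0` outside a set of Hausdorff dimension at most `(A / 4 + 1 / 6 + τ) / (1 - θ)` and every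
`C > 0`, for all but finitely many `n`, for ALL integers `k ≠ 0` with `||k| - α v_n| ≤ v_n ^ θ`, all integral points of
`y² = x³ + k` with `|x| ≤ |k| ^ A` satisfy Hall's inequality `max (|x|, |y|) ≤ C |k|³`.

2. For all `α > 0` outside a set of Hausdorff dimension at most `(99 / 100 + τ) / (1 - θ)`, for all but finitely many
`n`, for ALL integers `k ≠ 0` with `||k| - α v_n| ≤ v_n ^ θ`, the equation `y² = x³ + k` has no integral point at all with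
`|x| ≤ exp (|k| ^ (1 / 10000))`.

The numbers of exceptions are from the starting results `SparseViolations` and `AlmostAllK`, the passage to windows from
the starting module `Pool.Agent.Y854.GM.Win`.
-/

set_option autoImplicit false

namespace Pool.Agent.Results.MP_f2148a_nt.HallWindows

/-- the exponent of convergence of the sequence `v` is at most `τ` -/
def ExpLe (v : ℕ → ℝ) (τ : ℝ) : Prop := ∀ t : ℝ, τ < t → Summable (fun n : ℕ => (v n) ^ (-t))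

/-- the `k` with an integral point with `|x| ≤ |k| ^ A` which violates Hall's inequality with the constant `C` -/
def Viol (A C : ℝ) : Set ℤ := {k : ℤ | k ≠ 0 ∧ ∃ x y : ℤ, y ^ 2 = x ^ 3 + k ∧
  C * |(k : ℝ)| ^ 3 < max |(x : ℝ)| |(y : ℝ)| ∧ |(x : ℝ)| ≤ |(k : ℝ)| ^ A}

/-- the `k` with an integral point with `|x| ≤ exp (|k| ^ (1 / 10000))` -/
def Sol : Set ℤ := {k : ℤ | k ≠ 0 ∧ ∃ x y : ℤ, y ^ 2 = x ^ 3 + k ∧
  |(x : ℝ)| ≤ Real.exp (|(k : ℝ)| ^ ((1 : ℝ) / 10000))}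

lemma fin_le (X : ℝ) : {k : ℤ | |(k : ℝ)| ≤ X}.Finite := by
  apply (Set.finite_Icc (-⌊X⌋) ⌊X⌋).subset
  intro k hk
  have h := abs_le.1 (show |(k : ℝ)| ≤ X from hk)
  rw [Set.mem_Icc]
  constructor
  · have : -k ≤ ⌊X⌋ := Int.le_floor.2 (by push_cast; linarith [h.1])
    linarith
  · exact Int.le_floor.2 h.2

lemma count_viol (A C : ℝ) (hA : 2 ≤ A) (hC : 0 < C) (ε : ℝ) (hε : 0 < ε) : ∃ M : ℝ, ∀ X : ℝ, 1 ≤ X →
    {k | k ∈ Viol A C ∧ |((k : ℤ) : ℝ)| ≤ X}.Finite ∧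
      ({k | k ∈ Viol A C ∧ |((k : ℤ) : ℝ)| ≤ X}.ncard : ℝ) ≤ M * X ^ (A / 4 + 1 / 6 + ε) := by
  obtain ⟨M, hM⟩ := SparseViolations.result C A ε hC hA hε
  refine ⟨M, fun X hX => ⟨(fin_le X).subset fun k hk => hk.2, ?_⟩⟩
  refine le_trans ?_ (hM X hX)
  rw [Nat.cast_le]
  apply Set.ncard_le_ncard _ ((fin_le X).subset fun k hk => hk.2.1)
  rintro k ⟨⟨h0, x, y, h1, h2, h3⟩, h4⟩
  exact ⟨h0, h4, x, y, h1, h2, h3.trans (Real.rpow_le_rpow (abs_nonneg _) h4 (by linarith))⟩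

lemma count_sol : ∃ M : ℝ, ∀ X : ℝ, 1 ≤ X →
    {k | k ∈ Sol ∧ |((k : ℤ) : ℝ)| ≤ X}.Finite ∧
      ({k | k ∈ Sol ∧ |((k : ℤ) : ℝ)| ≤ X}.ncard : ℝ) ≤ M * X ^ ((99 : ℝ) / 100) := by
  obtain ⟨M, hM⟩ := AlmostAllK.result
  refine ⟨M, fun X hX => ⟨(fin_le X).subset fun k hk => hk.2, ?_⟩⟩
  refine le_trans ?_ (hM X hX)
  rw [Nat.cast_le]
  apply Set.ncard_le_ncard _ ((fin_le X).subset fun k hk => hk.2.1)
  rintro k ⟨⟨h0, x, y, h1, h2⟩, h4⟩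
  exact ⟨h0, h4, x, y, h1, h2.trans (Real.exp_le_exp.2
    (Real.rpow_le_rpow (abs_nonneg _) h4 (by norm_num)))⟩

/-- **Theorem.** Let `v ≥ 1` be a sequence of exponent of convergence at most `τ ≥ 0` and `θ < 1`.

(1) For every `A ≥ 2` there is a set `E` of Hausdorff dimension at most `(A / 4 + 1 / 6 + τ) / (1 - θ)` such that for
each `α > 0` outside `E` and each `C > 0`, for all but finitely many `n` and ALL integers `k ≠ 0` with
`||k| - α v_n| ≤ v_n ^ θ`, all integers `x`, `y` with `y² = x³ + k` and `|x| ≤ |k| ^ A` satisfy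
`max (|x|, |y|) ≤ C |k|³`.

(2) There is a set `E` of Hausdorff dimension at most `(99 / 100 + τ) / (1 - θ)` such that for each `α > 0` outside `E`,
for all but finitely many `n` and ALL integers `k ≠ 0` with `||k| - α v_n| ≤ v_n ^ θ`, all integers `x`, `y` with
`y² = x³ + k` satisfy `|x| > exp (|k| ^ (1 / 10000))`.

(3), (4) The sequences `v_n = (n + 1) ^ a` and `v_n = b ^ n` have exponent of convergence at most `1 / a` and `0`. -/
theorem result :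
    (∀ (v : ℕ → ℝ) (τ θ : ℝ), (∀ n, 1 ≤ v n) → 0 ≤ τ → ExpLe v τ → θ < 1 → ∀ A : ℝ, 2 ≤ A →
      ∃ E : Set ℝ, dimH E ≤ ENNReal.ofReal ((A / 4 + 1 / 6 + τ) / (1 - θ)) ∧
        ∀ α : ℝ, 0 < α → α ∉ E → ∀ C : ℝ, 0 < C → ∃ n₀ : ℕ, ∀ n : ℕ, n₀ ≤ n →
          ∀ k : ℤ, k ≠ 0 → |(|(k : ℝ)|) - α * v n| ≤ (v n) ^ θ → ∀ x y : ℤ, y ^ 2 = x ^ 3 + k →
            |(x : ℝ)| ≤ |(k : ℝ)| ^ A → max |(x : ℝ)| |(y : ℝ)| ≤ C * |(k : ℝ)| ^ 3) ∧
    (∀ (v : ℕ → ℝ) (τ θ : ℝ), (∀ n, 1 ≤ v n) → 0 ≤ τ → ExpLe v τ → θ < 1 →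
      ∃ E : Set ℝ, dimH E ≤ ENNReal.ofReal ((99 / 100 + τ) / (1 - θ)) ∧
        ∀ α : ℝ, 0 < α → α ∉ E → ∃ n₀ : ℕ, ∀ n : ℕ, n₀ ≤ n →
          ∀ k : ℤ, k ≠ 0 → |(|(k : ℝ)|) - α * v n| ≤ (v n) ^ θ → ∀ x y : ℤ, y ^ 2 = x ^ 3 + k →
            Real.exp (|(k : ℝ)| ^ ((1 : ℝ) / 10000)) < |(x : ℝ)|) ∧
    (∀ a : ℝ, 0 < a → ExpLe (fun n : ℕ => ((n : ℝ) + 1) ^ a) (1 / a)) ∧
    (∀ b : ℝ, 1 < b → ExpLe (fun n : ℕ => b ^ n) 0) := by
  refine ⟨fun v τ θ hv hτ hE hθ A hA => ?_, fun v τ θ hv hτ hE hθ => ?_,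
    fun κ hκ => Pool.Agent.Y854.GM.expLe_pow κ hκ, fun b hb => Pool.Agent.Y854.GM.expLe_geom b hb⟩
  · have hj : ∀ j : ℕ, ∃ E : Set ℝ, dimH E ≤ ENNReal.ofReal ((A / 4 + 1 / 6 + τ) / (1 - θ)) ∧
        ∀ α : ℝ, 0 < α → α ∉ E → ∃ n₀ : ℕ, ∀ n : ℕ, n₀ ≤ n →
          ∀ k ∈ Viol A (1 / ((j : ℝ) + 1)), (v n) ^ θ < |(|((k : ℤ) : ℝ)|) - α * v n| := fun j =>
      Pool.Agent.Y854.GM.windows (Viol A (1 / ((j : ℝ) + 1))) (fun k : ℤ => |(k : ℝ)|) hv hτ hE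
        (s := A / 4 + 1 / 6) (by linarith) hθ (fun ε hε => count_viol A _ hA (by positivity) ε hε)
    choose E hE1 hE2 using hj
    refine ⟨⋃ j, E j, ?_, fun α hα hαE C hC => ?_⟩
    · rw [dimH_iUnion]
      exact iSup_le hE1
    · obtain ⟨j, hj⟩ := exists_nat_gt (1 / C)
      have hj0 : (0 : ℝ) < (j : ℝ) + 1 := by positivity
      have hjC : 1 / ((j : ℝ) + 1) ≤ C := by
        rw [div_le_iff₀ hj0]
        rw [div_lt_iff₀ hC] at hj
        linarith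
      obtain ⟨n₀, hn⟩ := hE2 j α hα (fun h => hαE (Set.mem_iUnion.2 ⟨j, h⟩))
      refine ⟨n₀, fun n hn1 k hk0 hw x y hxy hx => ?_⟩
      by_contra hcon
      push Not at hcon
      refine absurd (hn n hn1 k ⟨hk0, x, y, hxy, lt_of_le_of_lt ?_ hcon, hx⟩) (not_lt.2 hw)
      exact mul_le_mul_of_nonneg_right hjC (by positivity)
  · obtain ⟨E, h2, h3⟩ := Pool.Agent.Y854.GM.windows Sol (fun k : ℤ => |(k : ℝ)|) hv hτ hE
      (s := 99 / 100) (by norm_num) hθ (fun ε hε => by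
        obtain ⟨M, hM⟩ := count_sol
        refine ⟨|M|, fun X hX => ⟨(hM X hX).1, (hM X hX).2.trans ?_⟩⟩
        have hX0 : (0 : ℝ) < X := by linarith
        calc M * X ^ ((99 : ℝ) / 100) ≤ |M| * X ^ ((99 : ℝ) / 100) :=
              mul_le_mul_of_nonneg_right (le_abs_self M) (by positivity)
          _ ≤ |M| * X ^ ((99 : ℝ) / 100 + ε) :=
              mul_le_mul_of_nonneg_left (Real.rpow_le_rpow_of_exponent_le hX (by linarith))
                (abs_nonneg M))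
    refine ⟨E, h2, fun α hα hαE => ?_⟩
    obtain ⟨n₀, hn⟩ := h3 α hα hαE
    refine ⟨n₀, fun n hn1 k hk0 hw x y hxy => ?_⟩
    by_contra hcon
    push Not at hcon
    exact absurd (hn n hn1 k ⟨hk0, x, y, hxy, hcon⟩) (not_lt.2 hw)

end Pool.Agent.Results.MP_f2148a_nt.HallWindows
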