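import Pool.Agent.Results.MP_f2148a_nt.SparseViolations
import Pool.Agent.Results.MP_f2148a_nt.AlmostAllK
import Pool.Agent.X16.NW.E

/-!
# Hall's inequality without exceptions for all `k` near real powers `t ^ κ_n` and `n ^ t`

Let `f_n(t)` be a family of functions of a real parameter `t` whose logarithmic slopes are locally bounded from below by
a positive constant and which locally is at least `w_n ≥ 1` for a sequence `w` of exponent of convergence at most `τ`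
(definition `Steep`). Examples: `t ^ κ_n` with `κ_n / log n → ∞` on `(1, ∞)`, `τ = 0`; `n ^ t` on `[a, ∞)`, `τ = 1 / a`.

1. Let `A ≥ 2`, `0 ≤ θ < 1`. For all `t` outside a set of Hausdorff dimension at most `(A / 4 + 1 / 6 + τ) / (1 - θ)` and
every `C > 0`, for all large `n`, for ALL integers `k ≠ 0` with `||k| - f_n(t)| ≤ f_n(t) ^ θ`, all integral points of
`y² = x³ + k` with `|x| ≤ |k| ^ A` satisfy `max (|x|, |y|) ≤ C |k|³`.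

2. For all `t` outside a set of Hausdorff dimension at most `(99 / 100 + τ) / (1 - θ)`, for all large `n`, for ALL
integers `k ≠ 0` with `||k| - f_n(t)| ≤ f_n(t) ^ θ`, the equation `y² = x³ + k` has no integral point at all with
`|x| ≤ exp (|k| ^ (1 / 10000))`.

The numbers of exceptions are from the starting results `SparseViolations` and `AlmostAllK`, the passage to nonlinear
windows is `Pool.Agent.X16.NW`.
-/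

set_option autoImplicit false

open Filter MeasureTheory

namespace Pool.Agent.Results.MP_f2148a_nt.RealPowers

/-- the exponent of convergence of the sequence `w` is at most `τ` -/
def ExpLe (w : ℕ → ℝ) (τ : ℝ) : Prop := ∀ p : ℝ, τ < p → Summable (fun n : ℕ => (w n) ^ (-p))

/-- The set `I` of parameters is a countable union of sets `J`, such that on `J`, for all large `n`, `f_n ≥ w_n ≥ 1` for
a sequence `w` of exponent of convergence at most `τ` and the logarithmic slopes of `f_n` are at least `c > 0`. -/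
def Steep (f : ℕ → ℝ → ℝ) (I : Set ℝ) (τ : ℝ) : Prop :=
  ∃ J : ℕ → Set ℝ, I ⊆ ⋃ m, J m ∧ ∀ m, ∃ (w : ℕ → ℝ) (c : ℝ) (n₁ : ℕ), 0 < c ∧ ExpLe w τ ∧
    ∀ n, n₁ ≤ n → 1 ≤ w n ∧ ∀ t ∈ J m, w n ≤ f n t ∧ ∀ u ∈ J m, t ≤ u → c * f n t * (u - t) ≤ f n u - f n t

/-- the `k` with an integral point with `|x| ≤ |k| ^ A` which violates Hall's inequality with the constant `C` -/
def Viol (A C : ℝ) : Set ℤ := {k : ℤ | k ≠ 0 ∧ ∃ x y : ℤ, y ^ 2 = x ^ 3 + k ∧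
  C * |(k : ℝ)| ^ 3 < max |(x : ℝ)| |(y : ℝ)| ∧ |(x : ℝ)| ≤ |(k : ℝ)| ^ A}

/-- the `k` with an integral point with `|x| ≤ exp (|k| ^ (1 / 10000))` -/
def Sol : Set ℤ := {k : ℤ | k ≠ 0 ∧ ∃ x y : ℤ, y ^ 2 = x ^ 3 + k ∧
  |(x : ℝ)| ≤ Real.exp (|(k : ℝ)| ^ ((1 : ℝ) / 10000))}

lemma fin_le (X : ℝ) : {k : ℤ | |(k : ℝ)| ≤ X}.Finite := by
  apply (Set.finite_Icc (-⌊X⌋) ⌊X⌋).subset
  intro k hk
  have h := abs_le.1 (show |(k : ℝ)| ≤ X from hk)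
  rw [Set.mem_Icc]
  constructor
  · have : -k ≤ ⌊X⌋ := Int.le_floor.2 (by push_cast; linarith [h.1])
    linarith
  · exact Int.le_floor.2 h.2

lemma count_viol (A C : ℝ) (hA : 2 ≤ A) (hC : 0 < C) (ε : ℝ) (hε : 0 < ε) : ∃ M : ℝ, ∀ X : ℝ, 1 ≤ X →
    {k | k ∈ Viol A C ∧ |((k : ℤ) : ℝ)| ≤ X}.Finite ∧
      ({k | k ∈ Viol A C ∧ |((k : ℤ) : ℝ)| ≤ X}.ncard : ℝ) ≤ M * X ^ (A / 4 + 1 / 6 + ε) := by
  obtain ⟨M, hM⟩ := SparseViolations.result C A ε hC hA hε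
  refine ⟨M, fun X hX => ⟨(fin_le X).subset fun k hk => hk.2, ?_⟩⟩
  refine le_trans ?_ (hM X hX)
  rw [Nat.cast_le]
  apply Set.ncard_le_ncard _ ((fin_le X).subset fun k hk => hk.2.1)
  rintro k ⟨⟨h0, x, y, h1, h2, h3⟩, h4⟩
  exact ⟨h0, h4, x, y, h1, h2, h3.trans (Real.rpow_le_rpow (abs_nonneg _) h4 (by linarith))⟩

lemma count_sol (ε : ℝ) (hε : 0 < ε) : ∃ M : ℝ, ∀ X : ℝ, 1 ≤ X →
    {k | k ∈ Sol ∧ |((k : ℤ) : ℝ)| ≤ X}.Finite ∧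
      ({k | k ∈ Sol ∧ |((k : ℤ) : ℝ)| ≤ X}.ncard : ℝ) ≤ M * X ^ ((99 : ℝ) / 100 + ε) := by
  obtain ⟨M, hM⟩ := AlmostAllK.result
  refine ⟨|M|, fun X hX => ⟨(fin_le X).subset fun k hk => hk.2, ?_⟩⟩
  have hX0 : (0 : ℝ) < X := by linarith
  have h7 : ({k | k ∈ Sol ∧ |((k : ℤ) : ℝ)| ≤ X}.ncard : ℝ) ≤ M * X ^ ((99 : ℝ) / 100) := by
    refine le_trans ?_ (hM X hX)
    rw [Nat.cast_le]
    apply Set.ncard_le_ncard _ ((fin_le X).subset fun k hk => hk.2.1)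
    rintro k ⟨⟨h0, x, y, h1, h2⟩, h4⟩
    exact ⟨h0, h4, x, y, h1, h2.trans (Real.exp_le_exp.2
      (Real.rpow_le_rpow (abs_nonneg _) h4 (by norm_num)))⟩
  calc ({k | k ∈ Sol ∧ |((k : ℤ) : ℝ)| ≤ X}.ncard : ℝ) ≤ M * X ^ ((99 : ℝ) / 100) := h7
    _ ≤ |M| * X ^ ((99 : ℝ) / 100) :=
        mul_le_mul_of_nonneg_right (le_abs_self M) (by positivity)
    _ ≤ |M| * X ^ ((99 : ℝ) / 100 + ε) :=
        mul_le_mul_of_nonneg_left (Real.rpow_le_rpow_of_exponent_le hX (by linarith))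
          (abs_nonneg M)

lemma part1 (f : ℕ → ℝ → ℝ) (I : Set ℝ) (τ θ : ℝ) (hf : Steep f I τ) (hτ : 0 ≤ τ) (hθ0 : 0 ≤ θ) (hθ : θ < 1)
    (A : ℝ) (hA : 2 ≤ A) :
    ∃ E : Set ℝ, dimH E ≤ ENNReal.ofReal ((A / 4 + 1 / 6 + τ) / (1 - θ)) ∧
        ∀ t ∈ I, t ∉ E → ∀ C : ℝ, 0 < C → ∃ n₀ : ℕ, ∀ n : ℕ, n₀ ≤ n →
          ∀ k : ℤ, k ≠ 0 → |(|(k : ℝ)|) - f n t| ≤ (f n t) ^ θ → ∀ x y : ℤ, y ^ 2 = x ^ 3 + k →
            |(x : ℝ)| ≤ |(k : ℝ)| ^ A → max |(x : ℝ)| |(y : ℝ)| ≤ C * |(k : ℝ)| ^ 3 := by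
  have hj : ∀ j : ℕ, ∃ E : Set ℝ, dimH E ≤ ENNReal.ofReal ((A / 4 + 1 / 6 + τ) / (1 - θ)) ∧
      ∀ t ∈ I, t ∉ E → ∃ n₀ : ℕ, ∀ n : ℕ, n₀ ≤ n →
        ∀ k ∈ Viol A (1 / ((j : ℝ) + 1)), (f n t) ^ θ < |(|((k : ℤ) : ℝ)|) - f n t| := fun j =>
    Pool.Agent.X16.NW.windows_loc (Viol A (1 / ((j : ℝ) + 1))) (fun k : ℤ => |(k : ℝ)|) hτ
      (s := A / 4 + 1 / 6) (by linarith) hθ0 hθ (fun ε hε => count_viol A _ hA (by positivity) ε hε) I f hf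
  choose E hE1 hE2 using hj
  refine ⟨⋃ j, E j, ?_, fun α hα hαE C hC => ?_⟩
  · rw [dimH_iUnion]
    exact iSup_le hE1
  · obtain ⟨j, hj⟩ := exists_nat_gt (1 / C)
    have hj0 : (0 : ℝ) < (j : ℝ) + 1 := by positivity
    have hjC : 1 / ((j : ℝ) + 1) ≤ C := by
      rw [div_le_iff₀ hj0]
      rw [div_lt_iff₀ hC] at hj
      linarith
    obtain ⟨n₀, hn⟩ := hE2 j α hα (fun h => hαE (Set.mem_iUnion.2 ⟨j, h⟩))
    refine ⟨n₀, fun n hn1 k hk0 hw x y hxy hx => ?_⟩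
    by_contra hcon
    push Not at hcon
    refine absurd (hn n hn1 k ⟨hk0, x, y, hxy, lt_of_le_of_lt ?_ hcon, hx⟩) (not_lt.2 hw)
    exact mul_le_mul_of_nonneg_right hjC (by positivity)

lemma part2 (f : ℕ → ℝ → ℝ) (I : Set ℝ) (τ θ : ℝ) (hf : Steep f I τ) (hτ : 0 ≤ τ) (hθ0 : 0 ≤ θ) (hθ : θ < 1) :
    ∃ E : Set ℝ, dimH E ≤ ENNReal.ofReal ((99 / 100 + τ) / (1 - θ)) ∧
        ∀ t ∈ I, t ∉ E → ∃ n₀ : ℕ, ∀ n : ℕ, n₀ ≤ n →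
          ∀ k : ℤ, k ≠ 0 → |(|(k : ℝ)|) - f n t| ≤ (f n t) ^ θ → ∀ x y : ℤ, y ^ 2 = x ^ 3 + k →
            Real.exp (|(k : ℝ)| ^ ((1 : ℝ) / 10000)) < |(x : ℝ)| := by
  obtain ⟨E, h2, h3⟩ := Pool.Agent.X16.NW.windows_loc Sol (fun k : ℤ => |(k : ℝ)|) hτ
    (s := 99 / 100) (by norm_num) hθ0 hθ (fun ε hε => count_sol ε hε) I f hf
  refine ⟨E, h2, fun α hα hαE => ?_⟩
  obtain ⟨n₀, hn⟩ := h3 α hα hαE
  refine ⟨n₀, fun n hn1 k hk0 hw x y hxy => ?_⟩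
  by_contra hcon
  push Not at hcon
  exact absurd (hn n hn1 k ⟨hk0, x, y, hxy, hcon⟩) (not_lt.2 hw)

/-- **Theorem.** Let `f` be a steep family on `I` with exponent `τ ≥ 0` and `0 ≤ θ < 1`.

(1) For every `A ≥ 2` there is a set `E` of Hausdorff dimension at most `(A / 4 + 1 / 6 + τ) / (1 - θ)` such that for
each `t ∈ I` outside `E` and each `C > 0`, for all large `n` and ALL integers `k ≠ 0` with
`||k| - f_n(t)| ≤ f_n(t) ^ θ`, all integers `x`, `y` with `y² = x³ + k` and `|x| ≤ |k| ^ A` satisfy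
`max (|x|, |y|) ≤ C |k|³`.

(2) There is a set `E` of Hausdorff dimension at most `(99 / 100 + τ) / (1 - θ)` such that for each `t ∈ I` outside `E`,
for all large `n` and ALL integers `k ≠ 0` with `||k| - f_n(t)| ≤ f_n(t) ^ θ`, all integers `x`, `y` with
`y² = x³ + k` satisfy `|x| > exp (|k| ^ (1 / 10000))`.

(3) The families `t ^ κ_n`, `κ_n / log n → ∞`, on `(1, ∞)` and `n ^ t` on `[a, ∞)` are steep with exponents `0`, `1 / a`.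

(4) In particular, if `A ≥ 2`, `θ ≥ 0`, `A / 4 + 1 / 6 + θ < 1`, `κ_n / log n → ∞`, the conclusion of (1) holds with
`f_n(t) = t ^ κ_n` for almost all `t > 1`. -/
theorem result :
    (∀ (f : ℕ → ℝ → ℝ) (I : Set ℝ) (τ θ : ℝ), Steep f I τ → 0 ≤ τ → 0 ≤ θ → θ < 1 → ∀ A : ℝ, 2 ≤ A →
      ∃ E : Set ℝ, dimH E ≤ ENNReal.ofReal ((A / 4 + 1 / 6 + τ) / (1 - θ)) ∧
        ∀ t ∈ I, t ∉ E → ∀ C : ℝ, 0 < C → ∃ n₀ : ℕ, ∀ n : ℕ, n₀ ≤ n →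
          ∀ k : ℤ, k ≠ 0 → |(|(k : ℝ)|) - f n t| ≤ (f n t) ^ θ → ∀ x y : ℤ, y ^ 2 = x ^ 3 + k →
            |(x : ℝ)| ≤ |(k : ℝ)| ^ A → max |(x : ℝ)| |(y : ℝ)| ≤ C * |(k : ℝ)| ^ 3) ∧
    (∀ (f : ℕ → ℝ → ℝ) (I : Set ℝ) (τ θ : ℝ), Steep f I τ → 0 ≤ τ → 0 ≤ θ → θ < 1 →
      ∃ E : Set ℝ, dimH E ≤ ENNReal.ofReal ((99 / 100 + τ) / (1 - θ)) ∧
        ∀ t ∈ I, t ∉ E → ∃ n₀ : ℕ, ∀ n : ℕ, n₀ ≤ n →
          ∀ k : ℤ, k ≠ 0 → |(|(k : ℝ)|) - f n t| ≤ (f n t) ^ θ → ∀ x y : ℤ, y ^ 2 = x ^ 3 + k →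
            Real.exp (|(k : ℝ)| ^ ((1 : ℝ) / 10000)) < |(x : ℝ)|) ∧
    (∀ κ : ℕ → ℝ, Tendsto (fun n : ℕ => κ n / Real.log n) atTop atTop →
      Steep (fun n t => t ^ κ n) (Set.Ioi (1 : ℝ)) 0) ∧
    (∀ a : ℝ, 0 < a → Steep (fun n t => (n : ℝ) ^ t) (Set.Ici a) (1 / a)) ∧
    (∀ κ : ℕ → ℝ, Tendsto (fun n : ℕ => κ n / Real.log n) atTop atTop →
      ∀ A θ : ℝ, 2 ≤ A → 0 ≤ θ → A / 4 + 1 / 6 + θ < 1 → ∀ᵐ t : ℝ, 1 < t → ∀ C : ℝ, 0 < C →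
        ∃ n₀ : ℕ, ∀ n : ℕ, n₀ ≤ n → ∀ k : ℤ, k ≠ 0 → |(|(k : ℝ)|) - t ^ κ n| ≤ (t ^ κ n) ^ θ →
          ∀ x y : ℤ, y ^ 2 = x ^ 3 + k → |(x : ℝ)| ≤ |(k : ℝ)| ^ A →
            max |(x : ℝ)| |(y : ℝ)| ≤ C * |(k : ℝ)| ^ 3) := by
  refine ⟨fun f I τ θ hf hτ hθ0 hθ A hA => part1 f I τ θ hf hτ hθ0 hθ A hA,
    fun f I τ θ hf hτ hθ0 hθ => part2 f I τ θ hf hτ hθ0 hθ,
    fun κ hκ => Pool.Agent.X16.NW.loc_rpow κ hκ, fun a ha => Pool.Agent.X16.NW.loc_npow a ha,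
    fun κ hκ A θ hA hθ0 hθ => ?_⟩
  obtain ⟨E, hE, hall⟩ := part1 _ _ 0 θ (Pool.Agent.X16.NW.loc_rpow κ hκ) le_rfl hθ0 (by linarith) A hA
  have h1 : volume E = 0 := by
    refine Pool.Agent.X16.NW.null_of_dim ?_ hE
    rw [div_lt_one (by linarith)]
    linarith
  have h2 : ∀ᵐ t : ℝ, t ∉ E := by
    rw [ae_iff]
    simpa using h1
  filter_upwards [h2] with t ht ht1 C hC
  exact hall t ht1 ht C hC

end Pool.Agent.Results.MP_f2148a_nt.RealPowers
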